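import Pool.Agent.V8H46.BM.Rec

/-!
# The trade-off for monotone machines
-/

set_option autoImplicit false

namespace Pool.Agent.V8H46.BM

open Finset

section

variable {N L m R : ℕ} [NeZero m]

/-- the vertices of a path -/
def act (R : ℕ) (s t : Fin N) (emb : Vx m → Fin N) (w : Fin (L + 1) → Vx m) (p : Fin (L + 1)) :
    Fin N :=
  if p.val = 0 then s else if R ≤ p.val then t else emb (w p)

/-- the colours of all vertices -/
def ecN (R : ℕ) (ret : Fin N → Vx m) (p : Fin (L + 1)) (c : ZMod m → Bool) (v : Fin N) : Bool :=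
  if p.val = 0 then false else if R ≤ p.val then true else xor (ret v).2 (c (ret v).1)

/-- the colours of the vertices of a path -/
def ecV (R : ℕ) (p : Fin (L + 1)) (c : ZMod m → Bool) (v : Vx m) : Bool :=
  if p.val = 0 then false else if R ≤ p.val then true else xor v.2 (c v.1)

theorem ecN_act (s t : Fin N) {emb : Vx m → Fin N} {ret : Fin N → Vx m}
    (hr : ∀ v, ret (emb v) = v) (w : Fin (L + 1) → Vx m) (p : Fin (L + 1)) (c : ZMod m → Bool) :
    ecN R ret p c (act R s t emb w p) = ecV R p c (w p) := by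
  unfold ecN ecV act
  by_cases h1 : p.val = 0
  · simp [h1]
  · by_cases h2 : R ≤ p.val
    · simp [h1, h2]
    · simp [h1, h2, hr]

/-- the graph which consists of a path -/
def pathInput (R : ℕ) (s t : Fin N) (emb : Vx m → Fin N) (w : Fin (L + 1) → Vx m) :
    Fin L → Layer N :=
  fun l e => decide (e.1 = act R s t emb w l.castSucc ∧ e.2 = act R s t emb w l.succ)

/-- the graph without the edges from colour `false` to colour `true` -/
def cutInput (R : ℕ) (ret : Fin N → Vx m) (κ : Fin (L + 1) → ZMod m → Bool) :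
    Fin L → Layer N :=
  fun l e => ecN R ret l.castSucc (κ l.castSucc) e.1 || !(ecN R ret l.succ (κ l.succ) e.2)

theorem reach_path (hR : R ≤ L) (hR0 : 0 < R) (s t : Fin N) (emb : Vx m → Fin N)
    (w : Fin (L + 1) → Vx m) : Reach s t (pathInput R s t emb w) := by
  refine ⟨act R s t emb w, ?_, ?_, ?_⟩
  · simp [act]
  · unfold act
    rw [if_neg (by rw [Fin.val_last]; omega), if_pos (by rw [Fin.val_last]; exact hR)]
  · intro l
    simp [pathInput]

theorem not_reach_cut (hR : R ≤ L) (hR0 : 0 < R) (s t : Fin N) (ret : Fin N → Vx m)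
    (κ : Fin (L + 1) → ZMod m → Bool) : ¬ Reach s t (cutInput R ret κ) := by
  rintro ⟨w, _, _, h⟩
  have key : ∀ p : Fin (L + 1), ecN R ret p (κ p) (w p) = false := by
    intro p
    induction p using Fin.induction with
    | zero => simp [ecN]
    | succ l ih =>
      have h1 := h l
      simp only [cutInput, ih, Bool.false_or, Bool.not_eq_true'] at h1
      exact h1
  have h2 := key (Fin.last L)
  unfold ecN at h2
  rw [if_neg (by rw [Fin.val_last]; omega), if_pos (by rw [Fin.val_last]; exact hR)] at h2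
  exact absurd h2 (by simp)

theorem core {Z : Type} [Preorder Z] [Fintype Z] {s t : Fin N}
    (M : Machine Z L N) {acc : Z → Prop} {T S D B r : ℕ}
    (hS : Fintype.card Z ≤ 2 ^ S) (hdec : M.Decides acc T s t) (hT : T ≤ 2 ^ D)
    (hL : 2 ^ (r + 1) ≤ L) (hN : 2 * m ≤ N) (hD : D ≤ 2 * B + 3 + r * B)
    (hm : 2 ^ (2 * B + 5) * (D * S + r + 3) ≤ m) : False := by
  classical
  obtain ⟨R, hR⟩ : ∃ R, R = 2 ^ (r + 1) := ⟨_, rfl⟩
  rw [← hR] at hL
  have hR0 : 0 < R := by rw [hR]; positivity
  have hcard : Fintype.card (Vx m) ≤ Fintype.card (Fin N) := by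
    rw [Fintype.card_prod, ZMod.card, Fintype.card_bool, Fintype.card_fin]
    omega
  obtain ⟨emb⟩ := Function.Embedding.nonempty_of_card_le hcard
  obtain ⟨ret, hret⟩ : ∃ ret : Fin N → Vx m, ∀ v, ret (emb v) = v :=
    ⟨Function.invFun emb, Function.leftInverse_invFun emb.injective⟩
  have hflip : Flip (L := L) (fun a w => M.run (pathInput R s t emb w) a)
      (fun a κ => M.run (cutInput R ret κ) a) (ecV R) := by
    intro a w
    obtain ⟨l, hl⟩ : ∃ l, l = M.query a (M.run (pathInput R s t emb w) a) := ⟨_, rfl⟩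
    refine ⟨l, fun κ h1 h2 => ?_⟩
    have h3 : ¬ (pathInput R s t emb w l ≤ cutInput R ret κ l) := by
      intro h4
      apply h2
      have h5 := M.mono a _ _ (pathInput R s t emb w ⊓ cutInput R ret κ)
        (cutInput R ret κ) h1 inf_le_right
      have h6 : (pathInput R s t emb w ⊓ cutInput R ret κ) l = pathInput R s t emb w l := by
        rw [Pi.inf_apply]
        exact inf_eq_left.2 h4
      rw [← hl, h6] at h5
      simp only [Machine.run, ← hl]
      exact h5
    rw [Pi.le_def] at h3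
    push Not at h3
    obtain ⟨e, he⟩ := h3
    have h4 : pathInput R s t emb w l e = true ∧ cutInput R ret κ l e = false := by
      revert he
      cases pathInput R s t emb w l e <;> cases cutInput R ret κ l e <;> simp
    obtain ⟨h4, h5⟩ := h4
    simp only [pathInput, decide_eq_true_eq] at h4
    simp only [cutInput, Bool.or_eq_false_iff, Bool.not_eq_false'] at h5
    rw [h4.1, h4.2, ecN_act s t hret, ecN_act s t hret] at h5
    exact h5
  refine recursion (Z := Z) (zA := fun a w => M.run (pathInput R s t emb w) a)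
    (zB := fun a κ => M.run (cutInput R ret κ) a) (ec := ecV R) (S := S) (R := R) (B := B)
    (Δm := D * S + r) hS hL hflip ?_ hm r D 0 0 T 0 0 (Nat.zero_le _) (by omega)
    (by rw [hR]; omega) (Nat.zero_le _) (by omega) (by omega) ?_
  · intro p hp hpR c v
    unfold ecV
    rw [if_neg (by omega), if_neg (by omega)]
  · refine ⟨fun _ _ => false, univ, univ, ?_, ?_, ?_, ?_⟩
    · intro w _ p hp
      rw [mem_Fr, ← hR] at hp
      unfold ecV
      by_cases h1 : p.val = 0
      · simp [h1]
      · rw [if_neg h1, if_pos (by omega)]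
        symm
        rw [decide_eq_true_eq]
        omega
    · have : proj (Fr L 0 (0 + 2 ^ (r + 1))) (univ : Finset (Fin (L + 1) → Vx m)) = univ := by
        ext u
        rw [mem_proj]
        exact ⟨fun _ => mem_univ _, fun _ => ⟨u, mem_univ _, fun _ _ => rfl⟩⟩
      rw [this, Finset.card_univ, pow_zero, one_mul]
    · rw [Finset.card_univ, pow_zero, one_mul]
    · intro w _ κ _
      refine ⟨le_rfl, fun hle => ?_⟩
      have h1 := (hdec.2 _).2 (reach_path hL hR0 s t emb w)
      have h2 := hdec.1 _ _ hle h1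
      exact not_reach_cut hL hR0 s t ret _ ((hdec.2 _).1 h2)

end

/-- the trade-off -/
theorem tradeoff {Z : Type} [Preorder Z] [Fintype Z] {N L : ℕ} {s t : Fin N}
    (M : Machine Z L N) {acc : Z → Prop} {T S D q : ℕ}
    (hS : Fintype.card Z ≤ 2 ^ S) (hdec : M.Decides acc T s t) (hT : T ≤ 2 ^ D)
    (hq : 1 ≤ q) (hL : 2 ^ q ≤ L) :
    N ^ (q + 1) ≤ 4 ^ D * (256 * (D * S + q + 2)) ^ (q + 1) := by
  obtain ⟨r, rfl⟩ := Nat.exists_eq_add_of_le' hq
  obtain ⟨B, hB⟩ : ∃ B, B = D / (r + 2) + 1 := ⟨_, rfl⟩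
  obtain ⟨m, hm⟩ : ∃ m, m = N / 2 := ⟨_, rfl⟩
  have hB1 : D ≤ (r + 2) * B := by
    have h1 := Nat.lt_mul_div_succ D (show 0 < r + 2 by omega)
    rw [hB]
    exact h1.le
  have hB2 : (r + 2) * B ≤ D + (r + 2) := by
    rw [hB, mul_add, mul_one]
    exact Nat.add_le_add_right (Nat.mul_div_le _ _) _
  have hX : ¬ (2 ^ (2 * B + 5) * (D * S + r + 3) ≤ m) := by
    intro h
    have hm0 : 0 < m := lt_of_lt_of_le (by positivity) h
    haveI : NeZero m := ⟨by omega⟩
    refine core (m := m) (B := B) (r := r) M hS hdec hT hL (by omega) ?_ h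
    have : (r + 2) * B = 2 * B + r * B := by ring
    omega
  push Not at hX
  have h1 : N ≤ 2 ^ (2 * B + 6) * (D * S + r + 3) := by
    have h2 : 2 ^ (2 * B + 6) = 2 * 2 ^ (2 * B + 5) := by rw [← pow_succ']
    rw [h2, mul_assoc]
    omega
  calc N ^ (r + 1 + 1) ≤ (2 ^ (2 * B + 6) * (D * S + r + 3)) ^ (r + 1 + 1) :=
        Nat.pow_le_pow_left h1 _
    _ = 2 ^ ((2 * B + 6) * (r + 2)) * (D * S + r + 3) ^ (r + 1 + 1) := by
        rw [mul_pow, ← pow_mul]
    _ ≤ 2 ^ (2 * D + 8 * (r + 2)) * (D * S + r + 3) ^ (r + 1 + 1) := by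
        apply Nat.mul_le_mul_right
        apply Nat.pow_le_pow_right (by norm_num)
        have : (2 * B + 6) * (r + 2) = 2 * ((r + 2) * B) + 6 * (r + 2) := by ring
        omega
    _ = 4 ^ D * (256 * (D * S + (r + 1) + 2)) ^ (r + 1 + 1) := by
        have e1 : (4 : ℕ) = 2 ^ 2 := by norm_num
        have e2 : (256 : ℕ) = 2 ^ 8 := by norm_num
        have e3 : D * S + (r + 1) + 2 = D * S + r + 3 := by ring
        rw [e3, mul_pow, e1, e2, ← pow_mul, ← pow_mul, pow_add]
        ring

end Pool.Agent.V8H46.BM
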