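import Pool.Agent.V8H46.BM.Miss

/-!
# Sets of functions: good partial functions
-/

set_option autoImplicit false

namespace Pool.Agent.V8H46.BM

open Finset

section

variable {ι X : Type} [Fintype ι] [DecidableEq ι] [Fintype X] [DecidableEq X]

/-- exchanging the parts of two functions -/
def swp (P : Finset ι) : (ι → X) × (ι → X) ≃ (ι → X) × (ι → X) where
  toFun z := (P.piecewise z.1 z.2, P.piecewise z.2 z.1)
  invFun z := (P.piecewise z.1 z.2, P.piecewise z.2 z.1)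
  left_inv z := by
    ext p <;> by_cases hp : p ∈ P <;> simp [hp]
  right_inv z := by
    ext p <;> by_cases hp : p ∈ P <;> simp [hp]

theorem sum_pw (P : Finset ι) (f : (ι → X) → ℕ) :
    ∑ u : ι → X, ∑ u' : ι → X, f (P.piecewise u u') = Fintype.card (ι → X) * ∑ u, f u := by
  have h1 : ∑ z : (ι → X) × (ι → X), f (swp P z).1 = ∑ z : (ι → X) × (ι → X), f z.1 :=
    Equiv.sum_comp (swp P) (fun z => f z.1)
  rw [Fintype.sum_prod_type, Fintype.sum_prod_type] at h1
  have h2 : ∑ u : ι → X, ∑ u' : ι → X, f (P.piecewise u u') =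
      ∑ x : ι → X, ∑ y : ι → X, f (swp P (x, y)).1 := rfl
  rw [h2, h1]
  simp only [Finset.sum_const, Finset.card_univ, smul_eq_mul]
  rw [← Finset.mul_sum]

theorem pw_pw (P : Finset ι) (u u' u'' : ι → X) :
    P.piecewise (P.piecewise u u') u'' = P.piecewise u u'' := by
  ext p; by_cases hp : p ∈ P <;> simp [hp]

theorem pw_pw_disj {P P' : Finset ι} (h : Disjoint P P') (u u' u'' : ι → X) :
    P'.piecewise (P.piecewise u u') u'' = P'.piecewise u' u'' := by
  ext p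
  by_cases hp : p ∈ P'
  · have : p ∉ P := fun h' => Finset.disjoint_left.1 h h' hp
    simp [hp, this]
  · simp [hp]

theorem pw_pw_sub {P P' : Finset ι} (h : P' ⊆ P) (κ κ₁ c : ι → X) :
    P'.piecewise κ (P.piecewise κ₁ c) = P.piecewise (P'.piecewise κ κ₁) c := by
  ext p
  by_cases hp : p ∈ P'
  · simp [hp, h hp]
  · by_cases hp' : p ∈ P <;> simp [hp, hp']

/-- the functions whose part on `P` has many extensions in `A` -/
def Gd (P : Finset ι) (γ : ℕ) (A : Finset (ι → X)) : Finset (ι → X) :=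
  univ.filter fun u => Fintype.card (ι → X) ≤
    2 ^ γ * (univ.filter fun u' : ι → X => P.piecewise u u' ∈ A).card

theorem mem_Gd {P : Finset ι} {γ : ℕ} {A : Finset (ι → X)} {u : ι → X} :
    u ∈ Gd P γ A ↔ Fintype.card (ι → X) ≤
      2 ^ γ * (univ.filter fun u' : ι → X => P.piecewise u u' ∈ A).card := by
  simp [Gd]

theorem Gd_pw {P : Finset ι} {γ : ℕ} {A : Finset (ι → X)} (u u' : ι → X) :
    P.piecewise u u' ∈ Gd P γ A ↔ u ∈ Gd P γ A := by
  rw [mem_Gd, mem_Gd]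
  simp only [pw_pw]

theorem Gd_pw_disj {P P' : Finset ι} (h : Disjoint P P') {γ : ℕ} {A : Finset (ι → X)}
    (u u' : ι → X) : P.piecewise u u' ∈ Gd P' γ A ↔ u' ∈ Gd P' γ A := by
  rw [mem_Gd, mem_Gd]
  simp only [pw_pw_disj h]

theorem nongood (P : Finset ι) (γ : ℕ) (A : Finset (ι → X)) [Nonempty X] :
    2 ^ γ * (A \ Gd P γ A).card ≤ Fintype.card (ι → X) := by
  have h0 : 0 < Fintype.card (ι → X) := Fintype.card_pos
  have h1 := sum_pw P (fun u : ι → X => if u ∈ A \ Gd P γ A then 1 else 0)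
  have h2 : ∑ u : ι → X, (if u ∈ A \ Gd P γ A then 1 else 0) = (A \ Gd P γ A).card := by
    rw [Finset.sum_ite_mem, univ_inter, Finset.sum_const, smul_eq_mul, mul_one]
  rw [h2] at h1
  have h3 : ∀ u : ι → X, 2 ^ γ * ∑ u' : ι → X,
      (if P.piecewise u u' ∈ A \ Gd P γ A then 1 else 0) ≤ Fintype.card (ι → X) := by
    intro u
    by_cases hu : u ∈ Gd P γ A
    · have : ∀ u' : ι → X, (if P.piecewise u u' ∈ A \ Gd P γ A then 1 else 0) = 0 := by
        intro u'
        rw [if_neg]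
        intro h
        exact (mem_sdiff.1 h).2 ((Gd_pw u u').2 hu)
      rw [Finset.sum_congr rfl fun u' _ => this u', Finset.sum_const_zero, mul_zero]
      exact h0.le
    · have h4 : ∑ u' : ι → X, (if P.piecewise u u' ∈ A \ Gd P γ A then 1 else 0) ≤
          (univ.filter fun u' : ι → X => P.piecewise u u' ∈ A).card := by
        rw [Finset.card_filter]
        apply Finset.sum_le_sum
        intro u' _
        by_cases h5 : P.piecewise u u' ∈ A
        · rw [if_pos h5]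
          split_ifs <;> omega
        · rw [if_neg h5, if_neg (fun h => h5 (mem_sdiff.1 h).1)]
      rw [mem_Gd] at hu
      push Not at hu
      exact (Nat.mul_le_mul_left _ h4).trans hu.le
  have h5 : 2 ^ γ * (Fintype.card (ι → X) * (A \ Gd P γ A).card) ≤
      Fintype.card (ι → X) * Fintype.card (ι → X) := by
    rw [← h1, Finset.mul_sum]
    refine (Finset.sum_le_sum fun u _ => h3 u).trans ?_
    rw [Finset.sum_const, Finset.card_univ, smul_eq_mul]
  have h6 : Fintype.card (ι → X) * (2 ^ γ * (A \ Gd P γ A).card) ≤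
      Fintype.card (ι → X) * Fintype.card (ι → X) := by
    refine le_trans (le_of_eq ?_) h5
    ring
  exact Nat.le_of_mul_le_mul_left h6 h0

theorem indep {P P' : Finset ι} (h : Disjoint P P') (γ : ℕ) (A : Finset (ι → X)) :
    Fintype.card (ι → X) * (Gd P γ A ∩ Gd P' γ A).card = (Gd P γ A).card * (Gd P' γ A).card := by
  have h1 := sum_pw P (fun u : ι → X => if u ∈ Gd P γ A ∩ Gd P' γ A then 1 else 0)
  have h2 : ∑ u : ι → X, (if u ∈ Gd P γ A ∩ Gd P' γ A then 1 else 0) =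
      (Gd P γ A ∩ Gd P' γ A).card := by
    rw [Finset.sum_ite_mem, univ_inter, Finset.sum_const, smul_eq_mul, mul_one]
  rw [h2] at h1
  rw [← h1]
  have h3 : ∀ u u' : ι → X, (if P.piecewise u u' ∈ Gd P γ A ∩ Gd P' γ A then 1 else 0) =
      (if u ∈ Gd P γ A then 1 else 0) * (if u' ∈ Gd P' γ A then 1 else 0) := by
    intro u u'
    have e : P.piecewise u u' ∈ Gd P γ A ∩ Gd P' γ A ↔ u ∈ Gd P γ A ∧ u' ∈ Gd P' γ A := by
      rw [mem_inter, Gd_pw, Gd_pw_disj h]
    by_cases h4 : u ∈ Gd P γ A <;> by_cases h5 : u' ∈ Gd P' γ A <;> simp [e, h4, h5]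
  rw [Finset.sum_congr rfl fun u _ => Finset.sum_congr rfl fun u' _ => h3 u u',
    ← Finset.sum_mul_sum, Finset.sum_ite_mem, Finset.sum_ite_mem, univ_inter, univ_inter,
    Finset.sum_const, Finset.sum_const, smul_eq_mul, smul_eq_mul, mul_one, mul_one]

/-- a dense set has many good parts on one of two disjoint sets of positions -/
theorem halves {P P' : Finset ι} (h : Disjoint P P') (b : ℕ) (A : Finset (ι → X)) [Nonempty X]
    (hA : Fintype.card (ι → X) ≤ 2 ^ (2 * b + 1) * A.card) :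
    Fintype.card (ι → X) ≤ 2 ^ (b + 1) * (Gd P (2 * b + 3) A).card ∨
      Fintype.card (ι → X) ≤ 2 ^ (b + 1) * (Gd P' (2 * b + 3) A).card := by
  classical
  by_contra hcon
  push Not at hcon
  obtain ⟨h1, h2⟩ := hcon
  obtain ⟨W, hW⟩ : ∃ W, W = Fintype.card (ι → X) := ⟨_, rfl⟩
  have h0 : 0 < W := by rw [hW]; exact Fintype.card_pos
  have h3 := nongood P (2 * b + 3) A
  have h4 := nongood P' (2 * b + 3) A
  have h5 := indep h (2 * b + 3) A
  have h6 : A.card ≤ (A \ Gd P (2 * b + 3) A).card + (A \ Gd P' (2 * b + 3) A).card +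
      (Gd P (2 * b + 3) A ∩ Gd P' (2 * b + 3) A).card := by
    have e1 : A ⊆ (A \ Gd P (2 * b + 3) A) ∪ (A \ Gd P' (2 * b + 3) A) ∪
        (Gd P (2 * b + 3) A ∩ Gd P' (2 * b + 3) A) := by
      intro x hx
      simp only [mem_union, mem_sdiff, mem_inter]
      tauto
    refine (Finset.card_le_card e1).trans ((Finset.card_union_le _ _).trans ?_)
    exact Nat.add_le_add_right (Finset.card_union_le _ _) _
  rw [← hW] at h1 h2 h3 h4 h5 hA
  obtain ⟨a, ha⟩ : ∃ a, a = A.card := ⟨_, rfl⟩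
  obtain ⟨n1, hn1⟩ : ∃ a, a = (A \ Gd P (2 * b + 3) A).card := ⟨_, rfl⟩
  obtain ⟨n2, hn2⟩ : ∃ a, a = (A \ Gd P' (2 * b + 3) A).card := ⟨_, rfl⟩
  obtain ⟨g1, hg1⟩ : ∃ a, a = (Gd P (2 * b + 3) A).card := ⟨_, rfl⟩
  obtain ⟨g2, hg2⟩ : ∃ a, a = (Gd P' (2 * b + 3) A).card := ⟨_, rfl⟩
  obtain ⟨g, hg⟩ : ∃ a, a = (Gd P (2 * b + 3) A ∩ Gd P' (2 * b + 3) A).card := ⟨_, rfl⟩
  rw [← ha, ← hn1, ← hn2, ← hg] at h6
  rw [← hg1] at h1
  rw [← hg2] at h2
  rw [← hn1] at h3
  rw [← hn2] at h4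
  rw [← hg, ← hg1, ← hg2] at h5
  rw [← ha] at hA
  -- `g1 g2 2 ^ (2 b + 2) < W ^ 2`
  have h7 : 2 ^ (2 * b + 3) * g < 2 * W := by
    have e1 : 2 ^ (b + 1) * g1 * (2 ^ (b + 1) * g2) < W * W := by
      rcases Nat.eq_zero_or_pos (2 ^ (b + 1) * g1) with h8 | h8
      · rw [h8, zero_mul]; positivity
      · exact Nat.mul_lt_mul_of_lt_of_lt h1 h2
    have e2 : W * (2 ^ (2 * b + 3) * g) < W * (2 * W) := by
      calc W * (2 ^ (2 * b + 3) * g) = 2 ^ (2 * b + 3) * (W * g) := by ring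
        _ = 2 ^ (2 * b + 3) * (g1 * g2) := by rw [h5]
        _ = 2 * (2 ^ (b + 1) * g1 * (2 ^ (b + 1) * g2)) := by
            have : 2 ^ (2 * b + 3) = 2 * (2 ^ (b + 1) * 2 ^ (b + 1)) := by
              rw [← pow_add, ← pow_succ']; congr 1; ring
            rw [this]; ring
        _ < 2 * (W * W) := by omega
        _ = _ := by ring
    exact Nat.lt_of_mul_lt_mul_left e2
  have h8 : 2 ^ (2 * b + 3) * a = 4 * (2 ^ (2 * b + 1) * a) := by
    have : 2 ^ (2 * b + 3) = 4 * 2 ^ (2 * b + 1) := by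
      rw [pow_add, pow_add]; ring
    rw [this]; ring
  have h9 : 2 ^ (2 * b + 3) * a ≤ 2 ^ (2 * b + 3) * n1 + 2 ^ (2 * b + 3) * n2 +
      2 ^ (2 * b + 3) * g := by
    rw [← mul_add, ← mul_add]
    exact Nat.mul_le_mul_left _ h6
  omega

end

end Pool.Agent.V8H46.BM
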