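import Pool.Agent.V8H46.BM.Core

/-!
# Register programs, and the corollary for layers of size `n ^ k`
-/

set_option autoImplicit false

namespace Pool.Agent.V8H46.BM

/-- a register program as a monotone machine -/
def toMachine {S L N : ℕ} (l₀ : Fin L) (p : ℕ → BOp S L N) : Machine (Fin S → Bool) L N where
  init := fun _ => false
  query t _ := match p t with
    | .load _ l _ _ => l
    | _ => l₀
  step t z y := match p t with
    | .load r _ u v => Function.update z r (y (u, v))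
    | .const r c => Function.update z r c
    | .or r a c => Function.update z r (z a || z c)
    | .and r a c => Function.update z r (z a && z c)
  mono t z z' x x' hz hx := by
    cases hp : p t with
    | load r l u v =>
      simp only
      intro i
      by_cases hi : i = r
      · subst hi
        rw [Function.update_self, Function.update_self]
        exact hx l (u, v)
      · rw [Function.update_of_ne hi, Function.update_of_ne hi]
        exact hz i
    | const r c =>
      simp only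
      intro i
      by_cases hi : i = r
      · subst hi
        rw [Function.update_self, Function.update_self]
      · rw [Function.update_of_ne hi, Function.update_of_ne hi]
        exact hz i
    | or r a c =>
      simp only
      intro i
      by_cases hi : i = r
      · subst hi
        rw [Function.update_self, Function.update_self]
        exact sup_le_sup (hz a) (hz c)
      · rw [Function.update_of_ne hi, Function.update_of_ne hi]
        exact hz i
    | and r a c =>
      simp only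
      intro i
      by_cases hi : i = r
      · subst hi
        rw [Function.update_self, Function.update_self]
        exact inf_le_inf (hz a) (hz c)
      · rw [Function.update_of_ne hi, Function.update_of_ne hi]
        exact hz i

theorem run_toMachine {S L N : ℕ} (l₀ : Fin L) (p : ℕ → BOp S L N) (x : Fin L → Layer N) :
    ∀ t, (toMachine l₀ p).run x t = bregs p x t := by
  intro t
  induction t with
  | zero => rfl
  | succ t ih =>
    simp only [Machine.run, bregs, ih]
    simp only [toMachine]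
    cases hp : p t <;> rfl

theorem decides_toMachine {S N L : ℕ} {s t : Fin N} (l₀ : Fin L)
    (p : ℕ → BOp S L N) {T : ℕ} {out : Fin S}
    (h : ∀ x, bregs p x T out = true ↔ Reach s t x) :
    (toMachine l₀ p).Decides (fun z => z out = true) T s t := by
  refine ⟨fun z z' hz hacc => ?_, fun x => ?_⟩
  · have h1 := hz out
    rw [hacc] at h1
    exact top_le_iff.1 h1
  · rw [run_toMachine]
    exact h x

theorem card_bits (S : ℕ) : Fintype.card (Fin S → Bool) ≤ 2 ^ S := by
  rw [Fintype.card_fun, Fintype.card_bool, Fintype.card_fin]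

/-- the numerical part -/
theorem numeric (F c k n q : ℕ) (hk : c + 1 ≤ k) (hq1 : 2 ^ q ≤ n)
    (hq : 2 * (4 ^ F * 256 * (F ^ 2 + 1) + 1) + 4 ≤ q) {S D : ℕ} (hS : S ≤ F * n ^ c)
    (hD : D = F * (q + 1)) :
    4 ^ D * (256 * (D * S + q + 2)) ^ (q + 1) < (n ^ k) ^ (q + 1) := by
  obtain ⟨G, hG⟩ : ∃ G, G = 4 ^ F * 256 * (F ^ 2 + 1) + 1 := ⟨_, rfl⟩
  rw [← hG] at hq
  have hn : 1 ≤ n := le_trans Nat.one_le_two_pow hq1
  have h1 : G * (q + 2) ≤ 2 ^ q := by
    obtain ⟨m, hm⟩ : ∃ m, m = q / 2 := ⟨_, rfl⟩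
    have h2 : 2 * m ≤ q := by omega
    have h3 : q ≤ 2 * m + 1 := by omega
    have h4 : G + 2 ≤ m := by omega
    have h5 : m + 1 ≤ 2 ^ m := Nat.lt_two_pow_self
    have h6 : 4 * G ≤ 2 ^ m := by
      calc 4 * G ≤ 4 * 2 ^ G := Nat.mul_le_mul_left _ Nat.lt_two_pow_self.le
        _ = 2 ^ (G + 2) := by rw [pow_add]; ring
        _ ≤ 2 ^ m := Nat.pow_le_pow_right (by norm_num) h4
    calc G * (q + 2) ≤ G * (4 * 2 ^ m) := Nat.mul_le_mul_left _ (by omega)
      _ = (4 * G) * 2 ^ m := by ring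
      _ ≤ 2 ^ m * 2 ^ m := Nat.mul_le_mul_right _ h6
      _ = 2 ^ (2 * m) := by rw [← pow_add]; congr 1; ring
      _ ≤ 2 ^ q := Nat.pow_le_pow_right (by norm_num) h2
  have h7 : 4 ^ F * 256 * (F ^ 2 + 1) * (q + 2) < n := by
    calc 4 ^ F * 256 * (F ^ 2 + 1) * (q + 2) < G * (q + 2) := by
          apply Nat.mul_lt_mul_of_pos_right _ (by omega)
          omega
      _ ≤ 2 ^ q := h1
      _ ≤ n := hq1
  have hnc : 1 ≤ n ^ c := Nat.one_le_pow _ _ hn
  have h8 : D * S + q + 2 ≤ (F ^ 2 + 1) * (q + 2) * n ^ c := by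
    calc D * S + q + 2 ≤ F * (q + 1) * (F * n ^ c) + (q + 2) * n ^ c := by
          rw [hD]
          have e1 : F * (q + 1) * S ≤ F * (q + 1) * (F * n ^ c) := Nat.mul_le_mul_left _ hS
          have e2 : (q + 2) * 1 ≤ (q + 2) * n ^ c := Nat.mul_le_mul_left _ hnc
          omega
      _ = (F ^ 2 * (q + 1) + (q + 2)) * n ^ c := by ring
      _ ≤ (F ^ 2 * (q + 2) + (q + 2)) * n ^ c := by gcongr; omega
      _ = _ := by ring
  have h9 : n ^ c * n ≤ n ^ k := by
    rw [← pow_succ]
    exact Nat.pow_le_pow_right hn hk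
  calc 4 ^ D * (256 * (D * S + q + 2)) ^ (q + 1)
      ≤ 4 ^ D * (256 * ((F ^ 2 + 1) * (q + 2) * n ^ c)) ^ (q + 1) := by gcongr
    _ = (n ^ c) ^ (q + 1) * (4 ^ F * 256 * (F ^ 2 + 1) * (q + 2)) ^ (q + 1) := by
        rw [hD, pow_mul, ← mul_pow, ← mul_pow]; congr 1; ring
    _ < (n ^ c) ^ (q + 1) * n ^ (q + 1) := by
        apply Nat.mul_lt_mul_of_pos_left
        · exact Nat.pow_lt_pow_left h7 (by omega)
        · positivity
    _ = (n ^ c * n) ^ (q + 1) := by rw [mul_pow]
    _ ≤ (n ^ k) ^ (q + 1) := Nat.pow_le_pow_left h9 _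

theorem corollary (f : ℕ → ℕ) (c k : ℕ) (hk : c + 1 ≤ k) : ∃ n₀ : ℕ, ∀ n ≥ n₀,
    ∀ S ≤ f k * n ^ c, ∀ T ≤ n ^ f k, ∀ (Z : Type) [Preorder Z] [Fintype Z],
      Fintype.card Z ≤ 2 ^ S → ∀ (s t : Fin (n ^ k))
        (M : Machine Z n (n ^ k)) (acc : Z → Prop),
        ¬ M.Decides acc T s t := by
  obtain ⟨F, hF⟩ : ∃ F, F = f k := ⟨_, rfl⟩
  rw [← hF]
  refine ⟨2 ^ (2 * (4 ^ F * 256 * (F ^ 2 + 1) + 1) + 4), ?_⟩
  intro n hn S hS T hT Z _ _ hZ s t M acc hdec
  obtain ⟨q, hq⟩ : ∃ q, q = Nat.log 2 n := ⟨_, rfl⟩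
  have hn0 : n ≠ 0 := by
    have : 0 < 2 ^ (2 * (4 ^ F * 256 * (F ^ 2 + 1) + 1) + 4) := by positivity
    omega
  have hq1 : 2 ^ q ≤ n := by rw [hq]; exact Nat.pow_log_le_self 2 hn0
  have hq2 : n < 2 ^ (q + 1) := by rw [hq]; exact Nat.lt_pow_succ_log_self (by norm_num) n
  have hq3 : 2 * (4 ^ F * 256 * (F ^ 2 + 1) + 1) + 4 ≤ q := by
    rw [hq]
    exact Nat.le_log_of_pow_le (by norm_num) hn
  have hT' : T ≤ 2 ^ (F * (q + 1)) := by
    calc T ≤ n ^ F := hT
      _ ≤ (2 ^ (q + 1)) ^ F := Nat.pow_le_pow_left hq2.le F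
      _ = 2 ^ (F * (q + 1)) := by rw [← pow_mul, mul_comm]
  have h1 := tradeoff M hZ hdec hT' (by omega) hq1
  exact absurd h1 (not_le.2 (numeric F c k n q hk hq1 hq3 hS rfl))

theorem corollary_programs (f : ℕ → ℕ) (c k : ℕ) (hk : c + 1 ≤ k) : ∃ n₀ : ℕ, ∀ n ≥ n₀,
    ∀ S ≤ f k * n ^ c, ∀ T ≤ n ^ f k, ∀ (s t : Fin (n ^ k))
      (p : ℕ → BOp S n (n ^ k)) (out : Fin S),
      ¬ ∀ x, (bregs p x T out = true ↔ Reach s t x) := by
  obtain ⟨n₀, h⟩ := corollary f c k hk
  refine ⟨n₀ + 1, ?_⟩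
  intro n hn S hS T hT s t p out hp
  have hn1 : 0 < n := by omega
  exact h n (by omega) S hS T hT (Fin S → Bool) (card_bits S) s t
    (toMachine ⟨0, hn1⟩ p) _ (decides_toMachine _ p hp)

end Pool.Agent.V8H46.BM
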