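import Mathlib

/-!
# Monotone machines and reachability in layered graphs: definitions
-/

set_option autoImplicit false

namespace Pool.Agent.V8H46.BM

/-- the edges between two consecutive layers of `N` vertices -/
abbrev Layer (N : ℕ) : Type := Fin N × Fin N → Bool

/-- A monotone machine for graphs with `L` sets of edges between layers of `N` vertices. `Z` is the
ordered set of the states of its memory. In step `t` in the state `z` the machine reads the whole
set `query t z` of edges, and it goes to the state `step t z y`, where `y` is this set; the
functions are arbitrary except that the transition is monotone: a larger state and a larger graph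
lead to a larger state. -/
structure Machine (Z : Type) [Preorder Z] (L N : ℕ) where
  init : Z
  query : ℕ → Z → Fin L
  step : ℕ → Z → Layer N → Z
  mono : ∀ (t : ℕ) (z z' : Z) (x x' : Fin L → Layer N), z ≤ z' → x ≤ x' →
    step t z (x (query t z)) ≤ step t z' (x' (query t z'))

/-- the state after `t` steps on the graph `x` -/
def Machine.run {Z : Type} [Preorder Z] {L N : ℕ} (M : Machine Z L N) (x : Fin L → Layer N) : ℕ → Z
  | 0 => M.init
  | t + 1 => M.step t (M.run x t) (x (M.query t (M.run x t)))

/-- Reachability of `t` from `s` in the layered graph `x` with layers `0, …, L` of `N` vertices:
`x l (u, v)` says that there is an edge from the vertex `u` of the layer `l` to the vertex `v` of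
the layer `l + 1`. -/
def Reach {N L : ℕ} (s t : Fin N) (x : Fin L → Layer N) : Prop :=
  ∃ w : Fin (L + 1) → Fin N, w 0 = s ∧ w (Fin.last L) = t ∧
    ∀ l : Fin L, x l (w l.castSucc, w l.succ) = true

/-- The machine decides reachability in `T` steps with the monotone set `acc` of accepting
states. -/
def Machine.Decides {Z : Type} [Preorder Z] {N L : ℕ} (M : Machine Z L N)
    (acc : Z → Prop) (T : ℕ) (s t : Fin N) : Prop :=
  (∀ z z', z ≤ z' → acc z → acc z') ∧ ∀ x, acc (M.run x T) ↔ Reach s t x

/-- One step of a monotone Boolean register program with `S` registers: load an input bit, load a
constant, compute a disjunction or a conjunction. The first argument is the register in which the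
result is stored. -/
inductive BOp (S L N : ℕ) : Type
  | load (r : Fin S) (l : Fin L) (u v : Fin N)
  | const (r : Fin S) (b : Bool)
  | or (r a b : Fin S)
  | and (r a b : Fin S)

/-- the effect of one step on the contents `g` of the registers -/
def BOp.apply {S L N : ℕ} (x : Fin L → Layer N) (o : BOp S L N) (g : Fin S → Bool) :
    Fin S → Bool :=
  match o with
  | .load r l u v => Function.update g r (x l (u, v))
  | .const r b => Function.update g r b
  | .or r a b => Function.update g r (g a || g b)
  | .and r a b => Function.update g r (g a && g b)

/-- the contents of the registers after the first `t` steps; at the beginning they are `false` -/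
def bregs {S L N : ℕ} (p : ℕ → BOp S L N) (x : Fin L → Layer N) : ℕ → Fin S → Bool
  | 0 => fun _ => false
  | t + 1 => (p t).apply x (bregs p x t)

end Pool.Agent.V8H46.BM
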