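import Mathlib

/-!
# Random colourings miss a dense set of paths with exponentially small probability
-/

set_option autoImplicit false

namespace Pool.Agent.V8H46.BM

open Finset

variable {ι : Type} [Fintype ι] [DecidableEq ι] {m : ℕ} [NeZero m]

/-- the vertices in one position: `m` pairs -/
abbrev Vx (m : ℕ) := ZMod m × Bool

/-- the colour of a vertex; the two vertices of a pair have different colours -/
def colr (κ : ι → ZMod m → Bool) (p : ι) (v : Vx m) : Bool := xor v.2 (κ p v.1)

theorem prod_bound {J : Type} [Fintype J] (Q h : ℕ) (hQ : 0 < Q) (f : J → ℕ)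
    (hf : ∀ j, f j ≤ Q) (hs : h * Q ≤ ∑ j, f j) :
    2 ^ h * ∏ j, (Q - f j) ≤ Q ^ Fintype.card J := by
  have hQ' : (0 : ℝ) < Q := by exact_mod_cast hQ
  have h1 : ∀ j, ((Q - f j : ℕ) : ℝ) ≤ Q * Real.exp (-(f j / Q)) := by
    intro j
    rw [Nat.cast_sub (hf j)]
    have h2 : 1 - (f j / Q : ℝ) ≤ Real.exp (-(f j / Q)) := by
      have := Real.add_one_le_exp (-(f j / Q : ℝ))
      linarith
    have h3 : (Q : ℝ) - f j = Q * (1 - f j / Q) := by field_simp
    rw [h3]
    exact mul_le_mul_of_nonneg_left h2 hQ'.le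
  have h4 : (∏ j, ((Q - f j : ℕ) : ℝ)) ≤ (Q : ℝ) ^ Fintype.card J * Real.exp (-h) := by
    calc (∏ j, ((Q - f j : ℕ) : ℝ)) ≤ ∏ j, (Q * Real.exp (-(f j / Q)) : ℝ) :=
          Finset.prod_le_prod (fun j _ => Nat.cast_nonneg _) (fun j _ => h1 j)
      _ = (Q : ℝ) ^ Fintype.card J * Real.exp (∑ j, -(f j / Q : ℝ)) := by
          rw [Finset.prod_mul_distrib, Finset.prod_const, Finset.card_univ, Real.exp_sum]
      _ ≤ _ := by
          apply mul_le_mul_of_nonneg_left _ (by positivity)
          apply Real.exp_le_exp.2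
          rw [Finset.sum_neg_distrib, ← Finset.sum_div, neg_le_neg_iff, le_div_iff₀ hQ']
          exact_mod_cast hs
  have h5 : (2 : ℝ) ^ h * Real.exp (-h) ≤ 1 := by
    rw [Real.exp_neg, ← div_eq_mul_inv, div_le_one (Real.exp_pos _)]
    have : Real.exp (h : ℝ) = Real.exp 1 ^ h := by
      rw [← Real.exp_nat_mul, mul_one]
    rw [this]
    apply pow_le_pow_left₀ (by norm_num)
    have := Real.add_one_le_exp (1 : ℝ)
    linarith
  have h6 : ((2 ^ h * ∏ j, (Q - f j) : ℕ) : ℝ) ≤ ((Q ^ Fintype.card J : ℕ) : ℝ) := by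
    push_cast
    calc (2 : ℝ) ^ h * ∏ j, ((Q - f j : ℕ) : ℝ)
        ≤ 2 ^ h * ((Q : ℝ) ^ Fintype.card J * Real.exp (-h)) := by gcongr
      _ = (Q : ℝ) ^ Fintype.card J * (2 ^ h * Real.exp (-h)) := by ring
      _ ≤ (Q : ℝ) ^ Fintype.card J * 1 := by gcongr
      _ = _ := mul_one _
  exact_mod_cast h6

open Classical in
/-- A dense set `F` of paths contains a path with the colours `τ`, except for a fraction `2 ^ (-h)`
of the colourings. -/
theorem miss (F : Finset (ι → Vx m)) (τ : ι → Bool) {G h : ℕ}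
    (hF : Fintype.card (ι → Vx m) ≤ G * F.card) (hm : G * h ≤ m) :
    2 ^ h * (univ.filter fun κ : ι → ZMod m → Bool =>
      ∀ u ∈ F, ∃ p, colr κ p (u p) ≠ τ p).card ≤ Fintype.card (ι → ZMod m → Bool) := by
  classical
  have hm0 : 0 < m := Nat.pos_of_ne_zero (NeZero.ne m)
  -- the fibres
  let pr : (ι → ZMod m) → (ι → Bool) → (ι → Vx m) := fun y b p => (y p, b p)
  let Fy : (ι → ZMod m) → Finset (ι → Bool) := fun y => univ.filter fun b => pr y b ∈ F
  have hsum : ∑ y, (Fy y).card = F.card := by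
    have e1 : F.card = ∑ y : ι → ZMod m, (F.filter fun u => (fun p => (u p).1) = y).card :=
      Finset.card_eq_sum_card_fiberwise (fun u _ => mem_univ _)
    rw [e1]
    refine Finset.sum_congr rfl fun y _ => ?_
    refine Finset.card_bij (fun b _ => pr y b) ?_ ?_ ?_
    · intro b hb
      rw [mem_filter] at hb ⊢
      exact ⟨hb.2, rfl⟩
    · intro b _ b' _ h
      funext p
      exact congrArg Prod.snd (congrFun h p)
    · intro u hu
      rw [mem_filter] at hu
      have e2 : pr y (fun p => (u p).2) = u := by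
        funext p
        have : (u p).1 = y p := congrFun hu.2 p
        exact Prod.ext this.symm rfl
      refine ⟨fun p => (u p).2, ?_, e2⟩
      rw [mem_filter]
      exact ⟨mem_univ _, by rw [e2]; exact hu.1⟩
  -- a good base point
  have hbase : ∃ y₀ : ι → ZMod m,
      m * F.card ≤ m ^ Fintype.card ι * ∑ j : ZMod m, (Fy fun p => y₀ p + j).card := by
    by_contra hcon
    push Not at hcon
    have e1 : ∑ y₀ : ι → ZMod m, m ^ Fintype.card ι * ∑ j : ZMod m, (Fy fun p => y₀ p + j).card <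
        ∑ _y₀ : ι → ZMod m, m * F.card :=
      Finset.sum_lt_sum_of_nonempty ⟨fun _ => 0, mem_univ _⟩ (fun y₀ _ => hcon y₀)
    rw [← Finset.mul_sum, Finset.sum_comm, Finset.sum_const, Finset.card_univ,
      Fintype.card_fun, ZMod.card, smul_eq_mul] at e1
    have e2 : ∀ j : ZMod m, ∑ y₀ : ι → ZMod m, (Fy fun p => y₀ p + j).card = F.card := by
      intro j
      rw [← hsum]
      exact Equiv.sum_comp (Equiv.addRight (fun _ : ι => j)) (fun y => (Fy y).card)
    rw [Finset.sum_congr rfl fun j _ => e2 j, Finset.sum_const, Finset.card_univ, ZMod.card,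
      smul_eq_mul] at e1
    exact lt_irrefl _ e1
  obtain ⟨y₀, hy₀⟩ := hbase
  -- the colourings which miss the set
  let Φ : (ι → ZMod m → Bool) → (ZMod m → ι → Bool) := fun κ j p => xor (κ p (y₀ p + j)) (τ p)
  have hΦ : Function.Injective Φ := by
    intro κ κ' h
    funext p y
    have h1 := congrFun (congrFun h (y - y₀ p)) p
    simp only [Φ, add_sub_cancel] at h1
    exact Bool.xor_left_inj.1 h1
  have hcard : (univ.filter fun κ : ι → ZMod m → Bool => ∀ u ∈ F, ∃ p, colr κ p (u p) ≠ τ p).card ≤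
      ∏ j : ZMod m, (2 ^ Fintype.card ι - (Fy fun p => y₀ p + j).card) := by
    have e1 : ∏ j : ZMod m, (2 ^ Fintype.card ι - (Fy fun p => y₀ p + j).card) =
        (Fintype.piFinset fun j : ZMod m => (Fy fun p => y₀ p + j)ᶜ).card := by
      rw [Fintype.card_piFinset]
      refine Finset.prod_congr rfl fun j _ => ?_
      rw [Finset.card_compl, Fintype.card_fun, Fintype.card_bool]
    rw [e1]
    refine Finset.card_le_card_of_injOn Φ ?_ hΦ.injOn
    intro κ hκ
    rw [Finset.mem_coe, mem_filter] at hκ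
    rw [Finset.mem_coe, Fintype.mem_piFinset]
    intro j
    rw [Finset.mem_compl]
    intro hj
    rw [mem_filter] at hj
    obtain ⟨p, hp⟩ := hκ.2 _ hj.2
    apply hp
    simp only [pr, colr, Φ]
    rw [Bool.xor_comm (κ p (y₀ p + j)) (τ p), Bool.xor_assoc, Bool.xor_self, Bool.xor_false]
  refine (Nat.mul_le_mul_left _ hcard).trans ?_
  have hQ : 0 < 2 ^ Fintype.card ι := by positivity
  have hs : h * 2 ^ Fintype.card ι ≤ ∑ j : ZMod m, (Fy fun p => y₀ p + j).card := by
    have hG : 0 < G := by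
      rcases Nat.eq_zero_or_pos G with h0 | h0
      · rw [h0, zero_mul, Nat.le_zero] at hF
        exact absurd hF Fintype.card_ne_zero
      · exact h0
    rw [Fintype.card_fun, Fintype.card_prod, ZMod.card, Fintype.card_bool, mul_pow] at hF
    obtain ⟨s, hs⟩ : ∃ s, s = ∑ j : ZMod m, (Fy fun p => y₀ p + j).card := ⟨_, rfl⟩
    rw [← hs] at hy₀ ⊢
    have hmp : 0 < m ^ Fintype.card ι := by positivity
    have e3 : m ^ Fintype.card ι * (G * (h * 2 ^ Fintype.card ι)) ≤
        m ^ Fintype.card ι * (G * s) := by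
      calc m ^ Fintype.card ι * (G * (h * 2 ^ Fintype.card ι))
          = (G * h) * (m ^ Fintype.card ι * 2 ^ Fintype.card ι) := by ring
        _ ≤ m * (G * F.card) := Nat.mul_le_mul hm hF
        _ = G * (m * F.card) := by ring
        _ ≤ G * (m ^ Fintype.card ι * s) := Nat.mul_le_mul_left _ hy₀
        _ = _ := by ring
    exact Nat.le_of_mul_le_mul_left (Nat.le_of_mul_le_mul_left e3 hmp) hG
  have h7 := prod_bound (J := ZMod m) (2 ^ Fintype.card ι) h hQ
    (fun j => (Fy fun p => y₀ p + j).card) (by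
      intro j
      refine (Finset.card_le_univ _).trans ?_
      rw [Fintype.card_fun, Fintype.card_bool]) hs
  refine h7.trans (le_of_eq ?_)
  rw [ZMod.card, Fintype.card_fun, Fintype.card_fun, ZMod.card, Fintype.card_bool, ← pow_mul,
    ← pow_mul, mul_comm]

end Pool.Agent.V8H46.BM
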