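import Pool.Agent.V8H46.BM.Step
import Pool.Agent.V8H46.BM.Mach

/-!
# The end of the search, and the recursion
-/

set_option autoImplicit false

namespace Pool.Agent.V8H46.BM

open Finset

section

variable {L m : ℕ} [NeZero m] {Z : Type} [Preorder Z]
  {zA : ℕ → (Fin (L + 1) → Vx m) → Z} {zB : ℕ → (Fin (L + 1) → ZMod m → Bool) → Z}
  {ec : Fin (L + 1) → (ZMod m → Bool) → Vx m → Bool}

/-- one step of the machine can separate a path from a colouring only by reading an edge of the
path whose ends have the colours `false` and `true` -/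
def Flip (zA : ℕ → (Fin (L + 1) → Vx m) → Z) (zB : ℕ → (Fin (L + 1) → ZMod m → Bool) → Z)
    (ec : Fin (L + 1) → (ZMod m → Bool) → Vx m → Bool) : Prop :=
  ∀ (a : ℕ) (w : Fin (L + 1) → Vx m), ∃ l : Fin L, ∀ κ : Fin (L + 1) → ZMod m → Bool,
    zA a w ≤ zB a κ → ¬ zA (a + 1) w ≤ zB (a + 1) κ →
      ec l.castSucc (κ l.castSucc) (w l.castSucc) = false ∧ ec l.succ (κ l.succ) (w l.succ) = true

theorem base (hflip : Flip zA zB ec) {k : Fin (L + 1)}
    (hec : ∀ (c : ZMod m → Bool) (v : Vx m), ec k c v = xor v.2 (c v.1)) {τ : Fin (L + 1) → Bool}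
    (hτ1 : ∀ p, τ p = false → p ≤ k) (hτ2 : ∀ p, τ p = true → k ≤ p) {a Δ g : ℕ}
    (h : St zA zB ec {k} τ a (a + 1) Δ g) (hm : 2 ^ (g + 1) * (Δ + 1) ≤ m) : False := by
  classical
  obtain ⟨c₀, W, K, k1, k2, k3, k4⟩ := h
  obtain ⟨N, hN⟩ : ∃ N, N = Fintype.card (Fin (L + 1) → ZMod m → Bool) := ⟨_, rfl⟩
  have hN0 : 0 < N := by rw [hN]; exact Fintype.card_pos
  rw [← hN] at k3
  -- the colour of the vertex in the position `k`
  have key : ∀ w ∈ W, ∃ x : Bool, ∀ κ ∈ K, colr κ k (w k) = x := by
    intro w hw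
    obtain ⟨l, hl⟩ := hflip a w
    by_cases hk : l.castSucc = k
    · refine ⟨false, fun κ hκ => ?_⟩
      have h1 := (hl _ (k4 w hw κ hκ).1 (k4 w hw κ hκ).2).1
      rw [hk, hec, Finset.piecewise_eq_of_mem _ _ _ (mem_singleton_self k)] at h1
      exact h1
    · refine ⟨true, fun κ hκ => ?_⟩
      have h1 := hl _ (k4 w hw κ hκ).1 (k4 w hw κ hκ).2
      have hk' : l.castSucc ∉ ({k} : Finset (Fin (L + 1))) := by rwa [mem_singleton]
      have h2 := h1.1
      rw [Finset.piecewise_eq_of_notMem _ _ _ hk', k1 w hw _ hk'] at h2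
      have h3 := hτ1 _ h2
      have h4 : l.succ ≤ k := by
        rw [Fin.le_def, Fin.val_succ]
        rw [Fin.le_def, Fin.val_castSucc] at h3
        have : l.val ≠ k.val := fun h => hk (Fin.ext h)
        omega
      have h5 : l.succ = k := by
        by_contra h6
        have h7 : l.succ ∉ ({k} : Finset (Fin (L + 1))) := by rwa [mem_singleton]
        have h8 := h1.2
        rw [Finset.piecewise_eq_of_notMem _ _ _ h7, k1 w hw _ h7] at h8
        exact h6 (le_antisymm h4 (hτ2 _ h8))
      have h9 := h1.2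
      rw [h5, hec, Finset.piecewise_eq_of_mem _ _ _ (mem_singleton_self k)] at h9
      exact h9
  have hW : W ⊆ (W.filter fun w => ∀ κ ∈ K, colr κ k (w k) = false) ∪
      (W.filter fun w => ∀ κ ∈ K, colr κ k (w k) = true) := by
    intro w hw
    obtain ⟨x, hx⟩ := key w hw
    cases x with
    | false => exact mem_union_left _ (mem_filter.2 ⟨hw, hx⟩)
    | true => exact mem_union_right _ (mem_filter.2 ⟨hw, hx⟩)
  have fin : ∀ x : Bool, Fintype.card (Fin (L + 1) → Vx m) ≤ 2 ^ (g + 1) *
      (proj {k} (W.filter fun w => ∀ κ ∈ K, colr κ k (w k) = x)).card → False := by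
    intro x hx
    have h1 := miss _ (fun _ => !x) hx hm
    rw [← hN] at h1
    obtain ⟨Ms, hMs⟩ : ∃ Ms, Ms = (univ.filter fun κ : Fin (L + 1) → ZMod m → Bool =>
      ∀ u ∈ proj {k} (W.filter fun w => ∀ κ ∈ K, colr κ k (w k) = x),
        ∃ p, colr κ p (u p) ≠ !x) := ⟨_, rfl⟩
    have h1' : 2 ^ (Δ + 1) * Ms.card ≤ N := by
      rw [hMs]
      convert h1
    have h2 : Ms.card < K.card := by
      have h3 : 2 ^ Δ * (2 * Ms.card) ≤ 2 ^ Δ * K.card := by
        calc 2 ^ Δ * (2 * Ms.card) = 2 ^ (Δ + 1) * Ms.card := by rw [pow_succ]; ring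
          _ ≤ _ := h1'.trans k3
      have h4 := Nat.le_of_mul_le_mul_left h3 (by positivity)
      have h5 : 0 < K.card := by
        rcases Nat.eq_zero_or_pos K.card with h0 | h0
        · rw [h0, mul_zero] at k3
          omega
        · exact h0
      omega
    obtain ⟨κ, hκ, hκ'⟩ := Finset.exists_mem_notMem_of_card_lt_card h2
    apply hκ'
    rw [hMs, mem_filter]
    refine ⟨mem_univ _, fun u hu => ⟨k, ?_⟩⟩
    obtain ⟨w, hw, hw'⟩ := mem_proj.1 hu
    rw [hw' k (mem_singleton_self k), (mem_filter.1 hw).2 κ hκ]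
    cases x <;> simp
  rcases half_card k2 (proj_union {k} _ _ _ hW) with h1 | h1
  · exact fin false h1
  · exact fin true h1

/-- the positions strictly between `i` and `j` -/
def Fr (L i j : ℕ) : Finset (Fin (L + 1)) := univ.filter fun k => i < k.val ∧ k.val < j

theorem mem_Fr {i j : ℕ} {k : Fin (L + 1)} : k ∈ Fr L i j ↔ i < k.val ∧ k.val < j := by
  simp [Fr]

theorem recursion [Fintype Z] {S R B Δm : ℕ} (hS : Fintype.card Z ≤ 2 ^ S) (hR : R ≤ L)
    (hflip : Flip zA zB ec)
    (hec : ∀ p : Fin (L + 1), 0 < p.val → p.val < R → ∀ (c : ZMod m → Bool) (v : Vx m),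
      ec p c v = xor v.2 (c v.1))
    (hm : 2 ^ (2 * B + 5) * (Δm + 3) ≤ m) : ∀ r : ℕ, ∀ d i a b Δ g : ℕ, a ≤ b → b ≤ a + 2 ^ d →
      i + 2 ^ (r + 1) ≤ R → g ≤ 2 * B + 3 → g + d ≤ 2 * B + 3 + r * B → Δ + d * S + r ≤ Δm →
      St zA zB ec (Fr L i (i + 2 ^ (r + 1))) (fun p => decide (i < p.val)) a b Δ g → False := by
  intro r
  induction r with
  | zero =>
    intro d
    induction d with
    | zero =>
      intro i a b Δ g hab hb hi hg _ hΔ h
      rcases Nat.eq_or_lt_of_le hab with rfl | hlt
      · exact h.same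
      · have hb' : b = a + 1 := by
          rw [pow_zero] at hb; omega
        subst hb'
        simp only [zero_add, pow_one] at hi h
        have hk : i + 1 < L + 1 := by omega
        have e1 : Fr L i (i + 2) = {(⟨i + 1, hk⟩ : Fin (L + 1))} := by
          ext p
          rw [mem_Fr, mem_singleton, Fin.ext_iff]
          simp only
          omega
        rw [e1] at h
        refine base hflip (hec ⟨i + 1, hk⟩ (by simp) (by simp only; omega)) ?_ ?_ h ?_
        · intro p hp
          simp only [decide_eq_false_iff_not, not_lt] at hp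
          rw [Fin.le_def]
          simp only
          omega
        · intro p hp
          simp only [decide_eq_true_eq] at hp
          rw [Fin.le_def]
          simp only
          omega
        · refine le_trans ?_ hm
          exact Nat.mul_le_mul (Nat.pow_le_pow_right (by norm_num) (by omega)) (by omega)
    | succ d ih =>
      intro i a b Δ g hab hb hi hg hgd hΔ h
      have hΔ' : Δ + S + d * S + 0 ≤ Δm := by
        rw [Nat.succ_mul] at hΔ; omega
      rcases h.split hS (min (a + 2 ^ d) b) with h1 | h1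
      · exact ih i a _ (Δ + S) (g + 1) (by omega) (by omega) hi (by omega) (by omega) hΔ' h1
      · exact ih i _ b (Δ + S) (g + 1) (by omega) (by rw [pow_succ] at hb; omega) hi (by omega)
          (by omega) hΔ' h1
  | succ r IH =>
    intro d
    induction d with
    | zero =>
      intro i a b Δ g hab hb hi hg hgd hΔ h
      have h2 := (h.mono (Δ' := Δ) (g' := 2 * (B + 1) + 1) le_rfl (by omega)).amplify
        (fun p hp => hec p (by have := (mem_Fr.1 hp).1; omega)
          (by have := (mem_Fr.1 hp).2; omega))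
        (P₁ := Fr L i (i + 2 ^ (r + 1))) (P₂ := Fr L (i + 2 ^ (r + 1)) (i + 2 ^ (r + 1) + 2 ^ (r + 1)))
        (by intro p hp; rw [mem_Fr] at hp ⊢; rw [pow_succ 2 (r + 1)]; omega)
        (by intro p hp; rw [mem_Fr] at hp ⊢; rw [pow_succ 2 (r + 1)]; omega)
        (by
          rw [Finset.disjoint_left]
          intro p hp hp'
          rw [mem_Fr] at hp hp'
          omega)
        (τ₁ := fun p => decide (i < p.val)) (τ₂ := fun p => decide (i + 2 ^ (r + 1) < p.val))
        (fun p _ => rfl)
        (by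
          intro p hp
          rw [mem_Fr] at hp
          have e1 : 2 ^ (r + 1 + 1) = 2 ^ (r + 1) + 2 ^ (r + 1) := by rw [pow_succ]; ring
          have e2 : 0 < 2 ^ (r + 1) := by positivity
          have e3 : (i + 2 ^ (r + 1) < p.val) ↔ (i < p.val) := by
            rw [e1] at hp
            omega
          simp only [e3])
        (by
          refine le_trans ?_ hm
          exact Nat.mul_le_mul (Nat.pow_le_pow_right (by norm_num) (by omega)) (by omega))
      have hi' : i + 2 ^ (r + 1) + 2 ^ (r + 1) ≤ R := by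
        rw [pow_succ 2 (r + 1)] at hi; omega
      have hi'' : i + 2 ^ (r + 1) ≤ R := le_trans (Nat.le_add_right _ _) hi'
      rcases h2 with h2 | h2
      · exact IH 0 i a b (Δ + 1) (B + 1 + 2) hab hb hi'' (by omega)
          (by nlinarith) (by omega) h2
      · exact IH 0 _ a b (Δ + 1) (B + 1 + 2) hab hb hi' (by omega) (by nlinarith) (by omega) h2
    | succ d ih =>
      intro i a b Δ g hab hb hi hg hgd hΔ h
      by_cases hd : d + 1 ≤ (r + 1) * B
      · have h2 := (h.mono (Δ' := Δ) (g' := 2 * (B + 1) + 1) le_rfl (by omega)).amplify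
          (fun p hp => hec p (by have := (mem_Fr.1 hp).1; omega)
            (by have := (mem_Fr.1 hp).2; omega))
          (P₁ := Fr L i (i + 2 ^ (r + 1)))
          (P₂ := Fr L (i + 2 ^ (r + 1)) (i + 2 ^ (r + 1) + 2 ^ (r + 1)))
          (by intro p hp; rw [mem_Fr] at hp ⊢; rw [pow_succ 2 (r + 1)]; omega)
          (by intro p hp; rw [mem_Fr] at hp ⊢; rw [pow_succ 2 (r + 1)]; omega)
          (by
            rw [Finset.disjoint_left]
            intro p hp hp'
            rw [mem_Fr] at hp hp'
            omega)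
          (τ₁ := fun p => decide (i < p.val)) (τ₂ := fun p => decide (i + 2 ^ (r + 1) < p.val))
          (fun p _ => rfl)
          (by
            intro p hp
            rw [mem_Fr] at hp
            have e1 : 2 ^ (r + 1 + 1) = 2 ^ (r + 1) + 2 ^ (r + 1) := by rw [pow_succ]; ring
            have e2 : 0 < 2 ^ (r + 1) := by positivity
            have e3 : (i + 2 ^ (r + 1) < p.val) ↔ (i < p.val) := by
              rw [e1] at hp
              omega
            simp only [e3])
          (by
            refine le_trans ?_ hm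
            exact Nat.mul_le_mul (Nat.pow_le_pow_right (by norm_num) (by omega)) (by omega))
        have hi' : i + 2 ^ (r + 1) + 2 ^ (r + 1) ≤ R := by
          rw [pow_succ 2 (r + 1)] at hi; omega
        have hi'' : i + 2 ^ (r + 1) ≤ R := le_trans (Nat.le_add_right _ _) hi'
        rw [Nat.succ_mul] at hd
        rcases h2 with h2 | h2
        · exact IH (d + 1) i a b (Δ + 1) (B + 1 + 2) hab hb hi'' (by omega)
            (by omega) (by omega) h2
        · exact IH (d + 1) _ a b (Δ + 1) (B + 1 + 2) hab hb hi' (by omega) (by omega)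
            (by omega) h2
      · have hΔ' : Δ + S + d * S + (r + 1) ≤ Δm := by
          rw [Nat.succ_mul] at hΔ; omega
        rcases h.split hS (min (a + 2 ^ d) b) with h1 | h1
        · exact ih i a _ (Δ + S) (g + 1) (by omega) (by omega) hi (by omega) (by omega) hΔ' h1
        · exact ih i _ b (Δ + S) (g + 1) (by omega) (by rw [pow_succ] at hb; omega) hi (by omega)
            (by omega) hΔ' h1

end

end Pool.Agent.V8H46.BM
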