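import Pool.Agent.V8H46.BM.Cyl

/-!
# The situation during the search, and its changes
-/

set_option autoImplicit false

namespace Pool.Agent.V8H46.BM

open Finset

section

variable {ι : Type} [Fintype ι] [DecidableEq ι] {m : ℕ} [NeZero m] {Z : Type} [Preorder Z]

/-- the functions which agree on `P` with an element of `W` -/
def proj (P : Finset ι) (W : Finset (ι → Vx m)) : Finset (ι → Vx m) :=
  univ.filter fun u => ∃ w ∈ W, ∀ p ∈ P, u p = w p

theorem mem_proj {P : Finset ι} {W : Finset (ι → Vx m)} {u : ι → Vx m} :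
    u ∈ proj P W ↔ ∃ w ∈ W, ∀ p ∈ P, u p = w p := by
  simp [proj]

/-- The situation: the memory does not separate the paths in `W` from the colourings in `K` at the
time `a`, and it separates them at the time `b`; the colours of the paths outside `P` are given by
`τ`; the set of the parts on `P` of the paths has density `2 ^ (-g)`, the set of colourings has
density `2 ^ (-Δ)`. -/
def St (zA : ℕ → (ι → Vx m) → Z) (zB : ℕ → (ι → ZMod m → Bool) → Z)
    (ec : ι → (ZMod m → Bool) → Vx m → Bool) (P : Finset ι) (τ : ι → Bool) (a b Δ g : ℕ) : Prop :=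
  ∃ (c₀ : ι → ZMod m → Bool) (W : Finset (ι → Vx m)) (K : Finset (ι → ZMod m → Bool)),
    (∀ w ∈ W, ∀ p ∉ P, ec p (c₀ p) (w p) = τ p) ∧
    Fintype.card (ι → Vx m) ≤ 2 ^ g * (proj P W).card ∧
    Fintype.card (ι → ZMod m → Bool) ≤ 2 ^ Δ * K.card ∧
    ∀ w ∈ W, ∀ κ ∈ K, zA a w ≤ zB a (P.piecewise κ c₀) ∧ ¬ zA b w ≤ zB b (P.piecewise κ c₀)

variable {zA : ℕ → (ι → Vx m) → Z} {zB : ℕ → (ι → ZMod m → Bool) → Z}
  {ec : ι → (ZMod m → Bool) → Vx m → Bool} {P : Finset ι} {τ : ι → Bool} {a b Δ g : ℕ}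

theorem St.mono (h : St zA zB ec P τ a b Δ g) {Δ' g' : ℕ} (h1 : Δ ≤ Δ') (h2 : g ≤ g') :
    St zA zB ec P τ a b Δ' g' := by
  obtain ⟨c₀, W, K, k1, k2, k3, k4⟩ := h
  exact ⟨c₀, W, K, k1, k2.trans (Nat.mul_le_mul_right _ (Nat.pow_le_pow_right (by norm_num) h2)),
    k3.trans (Nat.mul_le_mul_right _ (Nat.pow_le_pow_right (by norm_num) h1)), k4⟩

theorem St.same (h : St zA zB ec P τ a a Δ g) : False := by
  obtain ⟨c₀, W, K, _, k2, k3, k4⟩ := h
  have h1 : 0 < (proj P W).card := by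
    rcases Nat.eq_zero_or_pos (proj P W).card with h0 | h0
    · rw [h0, mul_zero, Nat.le_zero] at k2
      exact absurd k2 Fintype.card_ne_zero
    · exact h0
  have h2 : 0 < K.card := by
    rcases Nat.eq_zero_or_pos K.card with h0 | h0
    · rw [h0, mul_zero, Nat.le_zero] at k3
      exact absurd k3 Fintype.card_ne_zero
    · exact h0
  obtain ⟨u, hu⟩ := Finset.card_pos.1 h1
  obtain ⟨κ, hκ⟩ := Finset.card_pos.1 h2
  obtain ⟨w, hw, _⟩ := mem_proj.1 hu
  exact (k4 w hw κ hκ).2 (k4 w hw κ hκ).1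

theorem pigeon [Fintype Z] {S : ℕ} (hS : Fintype.card Z ≤ 2 ^ S)
    (K : Finset (ι → ZMod m → Bool)) (f : (ι → ZMod m → Bool) → Z) [DecidableEq Z] (z₀ : Z) :
    ∃ B : Z, K.card ≤ 2 ^ S * (K.filter fun κ => f κ = B).card := by
  by_contra hcon
  push Not at hcon
  have h1 : K.card = ∑ B : Z, (K.filter fun κ => f κ = B).card :=
    Finset.card_eq_sum_card_fiberwise (fun _ _ => mem_univ _)
  have h2 : ∑ B : Z, 2 ^ S * (K.filter fun κ => f κ = B).card < ∑ _B : Z, K.card :=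
    Finset.sum_lt_sum_of_nonempty ⟨z₀, mem_univ _⟩ fun B _ => hcon B
  rw [← Finset.mul_sum, ← h1, Finset.sum_const, Finset.card_univ, smul_eq_mul] at h2
  exact absurd (Nat.mul_le_mul_right K.card hS) (not_le.2 h2)

theorem proj_union (P : Finset ι) (W W₀ W₁ : Finset (ι → Vx m)) (h : W ⊆ W₀ ∪ W₁) :
    (proj P W).card ≤ (proj P W₀).card + (proj P W₁).card := by
  refine (Finset.card_le_card ?_).trans (Finset.card_union_le _ _)
  intro u hu
  obtain ⟨w, hw, hw'⟩ := mem_proj.1 hu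
  rcases mem_union.1 (h hw) with h1 | h1
  · exact mem_union_left _ (mem_proj.2 ⟨w, h1, hw'⟩)
  · exact mem_union_right _ (mem_proj.2 ⟨w, h1, hw'⟩)

theorem half_card {Ω g x y z : ℕ} (h : Ω ≤ 2 ^ g * x) (h1 : x ≤ y + z) :
    Ω ≤ 2 ^ (g + 1) * y ∨ Ω ≤ 2 ^ (g + 1) * z := by
  rcases Nat.le_total y z with h2 | h2
  · right
    calc Ω ≤ 2 ^ g * x := h
      _ ≤ 2 ^ g * (2 * z) := Nat.mul_le_mul_left _ (by omega)
      _ = _ := by rw [pow_succ]; ring
  · left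
    calc Ω ≤ 2 ^ g * x := h
      _ ≤ 2 ^ g * (2 * y) := Nat.mul_le_mul_left _ (by omega)
      _ = _ := by rw [pow_succ]; ring

/-- looking at the memory at the time `t` -/
theorem St.split [Fintype Z] {S : ℕ} (hS : Fintype.card Z ≤ 2 ^ S)
    (h : St zA zB ec P τ a b Δ g) (t : ℕ) :
    St zA zB ec P τ a t (Δ + S) (g + 1) ∨ St zA zB ec P τ t b (Δ + S) (g + 1) := by
  classical
  obtain ⟨c₀, W, K, k1, k2, k3, k4⟩ := h
  obtain ⟨B, hB⟩ := pigeon hS K (fun κ => zB t (P.piecewise κ c₀)) (zB t c₀)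
  have hK : Fintype.card (ι → ZMod m → Bool) ≤
      2 ^ (Δ + S) * (K.filter fun κ => zB t (P.piecewise κ c₀) = B).card := by
    calc _ ≤ _ := k3
      _ ≤ 2 ^ Δ * (2 ^ S * (K.filter fun κ => zB t (P.piecewise κ c₀) = B).card) :=
        Nat.mul_le_mul_left _ hB
      _ = _ := by rw [pow_add]; ring
  have hW : W ⊆ (W.filter fun w => ¬ zA t w ≤ B) ∪ (W.filter fun w => zA t w ≤ B) := by
    intro w hw
    by_cases h : zA t w ≤ B
    · exact mem_union_right _ (mem_filter.2 ⟨hw, h⟩)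
    · exact mem_union_left _ (mem_filter.2 ⟨hw, h⟩)
  rcases half_card k2 (proj_union P _ _ _ hW) with h1 | h1
  · left
    refine ⟨c₀, _, _, fun w hw p hp => k1 w (mem_filter.1 hw).1 p hp, h1, hK, ?_⟩
    intro w hw κ hκ
    obtain ⟨w1, w2⟩ := mem_filter.1 hw
    obtain ⟨κ1, κ2⟩ := mem_filter.1 hκ
    exact ⟨(k4 w w1 κ κ1).1, by rw [κ2]; exact w2⟩
  · right
    refine ⟨c₀, _, _, fun w hw p hp => k1 w (mem_filter.1 hw).1 p hp, h1, hK, ?_⟩
    intro w hw κ hκ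
    obtain ⟨w1, w2⟩ := mem_filter.1 hw
    obtain ⟨κ1, κ2⟩ := mem_filter.1 hκ
    exact ⟨by rw [κ2]; exact w2, (k4 w w1 κ κ1).2⟩

/-- restriction to a part `P'` of the positions -/
theorem restrict (hec : ∀ p ∈ P, ∀ (c : ZMod m → Bool) (v : Vx m), ec p c v = xor v.2 (c v.1))
    {c₀ : ι → ZMod m → Bool} {W : Finset (ι → Vx m)} {K : Finset (ι → ZMod m → Bool)}
    (k1 : ∀ w ∈ W, ∀ p ∉ P, ec p (c₀ p) (w p) = τ p) {P' : Finset ι} {β γ : ℕ}
    (k2 : Fintype.card (ι → Vx m) ≤ 2 ^ β * (Gd P' γ (proj P W)).card)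
    (k3 : Fintype.card (ι → ZMod m → Bool) ≤ 2 ^ Δ * K.card)
    (k4 : ∀ w ∈ W, ∀ κ ∈ K, zA a w ≤ zB a (P.piecewise κ c₀) ∧ ¬ zA b w ≤ zB b (P.piecewise κ c₀))
    (hP : P' ⊆ P) {τ' : ι → Bool} (hτ : ∀ p ∉ P, τ' p = τ p) (hm : 2 ^ γ * (Δ + 3) ≤ m) :
    St zA zB ec P' τ' a b (Δ + 1) (β + 1) := by
  classical
  obtain ⟨N, hN⟩ : ∃ N, N = Fintype.card (ι → ZMod m → Bool) := ⟨_, rfl⟩
  have hN0 : 0 < N := by rw [hN]; exact Fintype.card_pos
  obtain ⟨G, hG⟩ : ∃ G, G = Gd P' γ (proj P W) := ⟨_, rfl⟩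
  rw [← hG] at k2
  have hG0 : 0 < G.card := by
    rcases Nat.eq_zero_or_pos G.card with h0 | h0
    · rw [h0, mul_zero, Nat.le_zero] at k2
      exact absurd k2 Fintype.card_ne_zero
    · exact h0
  let F : (ι → Vx m) → Finset (ι → Vx m) := fun v =>
    univ.filter fun u' => P'.piecewise v u' ∈ proj P W
  let Ms : (ι → Vx m) → Finset (ι → ZMod m → Bool) := fun v =>
    univ.filter fun κ => ∀ u ∈ F v, ∃ p, colr κ p (u p) ≠ τ' p
  have hMs : ∀ v ∈ G, 2 ^ (Δ + 3) * (Ms v).card ≤ N := by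
    intro v hv
    rw [hG, mem_Gd] at hv
    rw [hN]
    exact miss (F v) τ' hv hm
  -- the colourings which miss too much
  let Bd : Finset (ι → ZMod m → Bool) := univ.filter fun κ =>
    G.card < 2 * (G.filter fun v => κ ∈ Ms v).card
  have hBd : 2 ^ (Δ + 2) * Bd.card ≤ N := by
    have e1 : ∑ κ : ι → ZMod m → Bool, (G.filter fun v => κ ∈ Ms v).card =
        ∑ v ∈ G, (Ms v).card := by
      simp only [Finset.card_filter]
      rw [Finset.sum_comm]
      refine Finset.sum_congr rfl fun v _ => ?_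
      rw [Finset.sum_ite_mem, univ_inter, Finset.sum_const, smul_eq_mul, mul_one]
    have e2 : Bd.card * G.card ≤ 2 * ∑ v ∈ G, (Ms v).card := by
      calc Bd.card * G.card = ∑ _κ ∈ Bd, G.card := by rw [Finset.sum_const, smul_eq_mul]
        _ ≤ ∑ κ ∈ Bd, 2 * (G.filter fun v => κ ∈ Ms v).card :=
            Finset.sum_le_sum fun κ hκ => (mem_filter.1 hκ).2.le
        _ ≤ ∑ κ : ι → ZMod m → Bool, 2 * (G.filter fun v => κ ∈ Ms v).card :=
            Finset.sum_le_sum_of_subset (subset_univ _)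
        _ = _ := by rw [← Finset.mul_sum, e1]
    have e3 : 2 ^ (Δ + 3) * ∑ v ∈ G, (Ms v).card ≤ G.card * N := by
      rw [Finset.mul_sum]
      refine (Finset.sum_le_sum hMs).trans ?_
      rw [Finset.sum_const, smul_eq_mul]
    have e4 : G.card * (2 * (2 ^ (Δ + 2) * Bd.card)) ≤ G.card * (2 * N) := by
      calc G.card * (2 * (2 ^ (Δ + 2) * Bd.card)) = 2 ^ (Δ + 3) * (Bd.card * G.card) := by
            rw [pow_succ 2 (Δ + 2)]; ring
        _ ≤ 2 ^ (Δ + 3) * (2 * ∑ v ∈ G, (Ms v).card) := Nat.mul_le_mul_left _ e2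
        _ = 2 * (2 ^ (Δ + 3) * ∑ v ∈ G, (Ms v).card) := by ring
        _ ≤ 2 * (G.card * N) := Nat.mul_le_mul_left _ e3
        _ = _ := by ring
    exact Nat.le_of_mul_le_mul_left (Nat.le_of_mul_le_mul_left e4 hG0) (by norm_num)
  -- the popular colourings
  let Pp : Finset (ι → ZMod m → Bool) := univ.filter fun κ₁ =>
    N ≤ 2 ^ (Δ + 1) * (univ.filter fun κ : ι → ZMod m → Bool => P'.piecewise κ κ₁ ∈ K).card
  have hPp : N ≤ 2 ^ (Δ + 1) * Pp.card := by
    have e1 := sum_pw P' (fun κ : ι → ZMod m → Bool => if κ ∈ K then 1 else 0)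
    rw [Finset.sum_comm, Finset.sum_ite_mem, univ_inter, Finset.sum_const, smul_eq_mul,
      mul_one, ← hN] at e1
    have e2 : ∀ κ₁ : ι → ZMod m → Bool,
        2 ^ (Δ + 1) * ∑ κ : ι → ZMod m → Bool, (if P'.piecewise κ κ₁ ∈ K then 1 else 0) ≤
        (if κ₁ ∈ Pp then 2 ^ (Δ + 1) * N else 0) + N := by
      intro κ₁
      rw [← Finset.card_filter]
      by_cases h : κ₁ ∈ Pp
      · rw [if_pos h]
        refine le_trans (Nat.mul_le_mul_left _ ?_) (Nat.le_add_right _ _)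
        rw [hN]
        exact Finset.card_le_univ _
      · rw [if_neg h, zero_add]
        by_contra hcon
        push Not at hcon
        exact h (mem_filter.2 ⟨mem_univ _, hcon.le⟩)
    have e3 : 2 ^ (Δ + 1) * (N * K.card) ≤ Pp.card * (2 ^ (Δ + 1) * N) + N * N := by
      rw [← e1, Finset.mul_sum]
      refine (Finset.sum_le_sum fun κ₁ _ => e2 κ₁).trans ?_
      rw [Finset.sum_add_distrib, Finset.sum_ite_mem, univ_inter, Finset.sum_const,
        Finset.sum_const, Finset.card_univ, smul_eq_mul, smul_eq_mul, ← hN]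
    have e4 : N * (2 ^ (Δ + 1) * K.card) ≤ N * (2 ^ (Δ + 1) * Pp.card + N) := by
      calc N * (2 ^ (Δ + 1) * K.card) = 2 ^ (Δ + 1) * (N * K.card) := by ring
        _ ≤ _ := e3
        _ = _ := by ring
    have e5 := Nat.le_of_mul_le_mul_left e4 hN0
    have e6 : 2 * N ≤ 2 ^ (Δ + 1) * K.card := by
      rw [pow_succ]
      rw [← hN] at k3
      calc 2 * N ≤ 2 * (2 ^ Δ * K.card) := Nat.mul_le_mul_left _ k3
        _ = _ := by ring
    omega
  -- a popular colouring which is not bad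
  have hlt : Bd.card < Pp.card := by
    have e1 : 2 ^ (Δ + 1) * (2 * Bd.card) ≤ 2 ^ (Δ + 1) * Pp.card := by
      calc 2 ^ (Δ + 1) * (2 * Bd.card) = 2 ^ (Δ + 2) * Bd.card := by
            rw [pow_succ 2 (Δ + 1)]; ring
        _ ≤ N := hBd
        _ ≤ _ := hPp
    have e2 := Nat.le_of_mul_le_mul_left e1 (by positivity)
    have e3 : 0 < Pp.card := by
      rcases Nat.eq_zero_or_pos Pp.card with h0 | h0
      · rw [h0, mul_zero] at hPp
        omega
      · exact h0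
    omega
  obtain ⟨κ₁, h1, h2⟩ := Finset.exists_mem_notMem_of_card_lt_card hlt
  have h3 := (mem_filter.1 h1).2
  have h4 : 2 * (G.filter fun v => κ₁ ∈ Ms v).card ≤ G.card := by
    by_contra hcon
    push Not at hcon
    exact h2 (mem_filter.2 ⟨mem_univ _, hcon⟩)
  refine ⟨P.piecewise κ₁ c₀,
    W.filter fun w => ∀ p ∉ P', ec p (P.piecewise κ₁ c₀ p) (w p) = τ' p,
    univ.filter fun κ => P'.piecewise κ κ₁ ∈ K, fun w hw => (mem_filter.1 hw).2, ?_, ?_, ?_⟩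
  · have e1 : (G.filter fun v => κ₁ ∉ Ms v) ⊆ proj P' (W.filter fun w => ∀ p ∉ P',
        ec p (P.piecewise κ₁ c₀ p) (w p) = τ' p) := by
      intro v hv
      obtain ⟨_, hv2⟩ := mem_filter.1 hv
      have hv3 : ∃ u ∈ F v, ∀ p, colr κ₁ p (u p) = τ' p := by
        by_contra hcon
        push Not at hcon
        exact hv2 (mem_filter.2 ⟨mem_univ _, hcon⟩)
      obtain ⟨u, hu1, hu2⟩ := hv3
      obtain ⟨w, hw1, hw2⟩ := mem_proj.1 (mem_filter.1 hu1).2
      refine mem_proj.2 ⟨w, mem_filter.2 ⟨hw1, ?_⟩, ?_⟩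
      · intro p hp
        by_cases hpP : p ∈ P
        · have e2 := hw2 p hpP
          rw [Finset.piecewise_eq_of_notMem _ _ _ hp] at e2
          rw [Finset.piecewise_eq_of_mem _ _ _ hpP, hec p hpP, ← e2]
          exact hu2 p
        · rw [Finset.piecewise_eq_of_notMem _ _ _ hpP, k1 w hw1 p hpP, hτ p hpP]
      · intro p hp
        have e2 := hw2 p (hP hp)
        rwa [Finset.piecewise_eq_of_mem _ _ _ hp] at e2
    have e2 := Finset.card_le_card e1
    have e3 := Finset.card_filter_add_card_filter_not (s := G) (fun v => κ₁ ∈ Ms v)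
    have e4 : G.card ≤ 2 * (G.filter fun v => κ₁ ∉ Ms v).card := by omega
    calc _ ≤ _ := k2
      _ ≤ 2 ^ β * (2 * (G.filter fun v => κ₁ ∉ Ms v).card) := Nat.mul_le_mul_left _ e4
      _ = 2 ^ (β + 1) * (G.filter fun v => κ₁ ∉ Ms v).card := by rw [pow_succ]; ring
      _ ≤ _ := Nat.mul_le_mul_left _ e2
  · rw [← hN]; exact h3
  · intro w hw κ hκ
    rw [pw_pw_sub hP]
    exact k4 w (mem_filter.1 hw).1 _ (mem_filter.1 hκ).2

/-- going to one of two parts -/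
theorem St.amplify {b' : ℕ} (h : St zA zB ec P τ a b Δ (2 * b' + 1))
    (hec : ∀ p ∈ P, ∀ (c : ZMod m → Bool) (v : Vx m), ec p c v = xor v.2 (c v.1))
    {P₁ P₂ : Finset ι} (h1 : P₁ ⊆ P) (h2 : P₂ ⊆ P) (hd : Disjoint P₁ P₂) {τ₁ τ₂ : ι → Bool}
    (hτ₁ : ∀ p ∉ P, τ₁ p = τ p) (hτ₂ : ∀ p ∉ P, τ₂ p = τ p)
    (hm : 2 ^ (2 * b' + 3) * (Δ + 3) ≤ m) :
    St zA zB ec P₁ τ₁ a b (Δ + 1) (b' + 2) ∨ St zA zB ec P₂ τ₂ a b (Δ + 1) (b' + 2) := by
  obtain ⟨c₀, W, K, k1, k2, k3, k4⟩ := h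
  rcases halves hd b' (proj P W) k2 with h3 | h3
  · exact Or.inl (restrict hec k1 h3 k3 k4 h1 hτ₁ hm)
  · exact Or.inr (restrict hec k1 h3 k3 k4 h2 hτ₂ hm)

end

end Pool.Agent.V8H46.BM
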